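import Mathlib
import Pool.Agent.H2.UltraDefs
import Pool.Agent.H2.UltraProof

open Pool.Agent.H2.Ultra

theorem Pool.Agent.Results.MP_d3b762_co.Diagonal.result (p : Ultrafilter ℕ+)
    (hp : ∀ n : ℕ+, p ≠ pure n) : E1 p p ≠ E2 p p :=
  ne12 p p hp hp
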